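import Pool.Agent.H92.CK.Targets

/-!
# NAC: a crack which is nowhere analytic is contained in every crack with the same measurements
-/

set_option autoImplicit false

open MeasureTheory Set Filter Topology Metric
open scoped ENNReal NNReal ContDiff RealInnerProductSpace

namespace Pool.Agent.H74.CK

open Pool.Agent.H94.IC Pool.Agent.H94.AC Pool.Agent.H92.CK

/-- translation of a chart -/
theorem nac_flat {S : Set E} {q : E} (Ψ : OpenPartialHomeomorph E E) (hq : q ∈ Ψ.source)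
    (hq2 : (Ψ q) 2 = 0) (hsm : ContDiffOn ℝ ∞ Ψ Ψ.source) (hsms : ContDiffOn ℝ ∞ Ψ.symm Ψ.target)
    (hfl : ∀ x ∈ Ψ.source, x ∈ S ↔ (Ψ x) 2 = 0) : FlatChart S q False := by
  refine ⟨Ψ.transHomeomorph (Homeomorph.addRight (-(Ψ q))), hq, ?_, ?_, ?_, ?_⟩
  · show Ψ q + -(Ψ q) = 0
    exact add_neg_cancel _
  · show ContDiffOn ℝ ∞ (fun x => Ψ x + -(Ψ q)) Ψ.source
    exact hsm.add contDiffOn_const
  · have h1 : ContDiffOn ℝ ∞ (fun y : E => Ψ.symm (y + Ψ q))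
        ((fun y : E => y + Ψ q) ⁻¹' Ψ.target) :=
      hsms.comp (contDiff_id.add contDiff_const).contDiffOn (fun y hy => hy)
    have e : ∀ y : E, (Homeomorph.addRight (-(Ψ q))).symm y = y + Ψ q := by
      intro y
      show y + - -(Ψ q) = y + Ψ q
      rw [neg_neg]
    refine (h1.congr fun y hy => ?_).mono fun y hy => ?_
    · show Ψ.symm ((Homeomorph.addRight (-(Ψ q))).symm y) = _
      rw [e]
    · have h2 : (Homeomorph.addRight (-(Ψ q))).symm y ∈ Ψ.target := hy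
      rw [e] at h2
      exact h2
  · intro x hx
    have hx' : x ∈ Ψ.source := hx
    rw [hfl x hx']
    have h1 : (Ψ.transHomeomorph (Homeomorph.addRight (-(Ψ q)))) x = Ψ x + -(Ψ q) := rfl
    rw [h1]
    simp [hq2]

theorem pf_NAC (hTAN : T_TAN) (hSIY : T_SIY) (hINC : T_INC) (hNTV : T_NTV) (hCNX : T_CNX)
    (hSQI : T_SQI) (hWNS : T_WNS) (_hEDC : T_EDC) (hANC : T_ANC) : T_NAC := by
  intro N Ω S S' σ ν ψ h h' τ τ' hD hσ hF hS hS' hh hsol hh' hsol' heq hno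
  by_contra hcon
  obtain ⟨q0, hq0, hq0'⟩ := not_subset.1 hcon
  have hSc : IsClosed S := hS.cpt.isClosed
  have hSc' : IsClosed S' := hS'.cpt.isClosed
  obtain ⟨p, hpS', hpint⟩ := mem_closure_iff.1 (hSQI Ω S hS hq0) S'ᶜ hSc'.isOpen_compl hq0'
  obtain ⟨hpS, Ψ, hp, hp0', hsm, hsms, hfl⟩ := hpint
  have hpΩ : p ∈ Ω := hS.sub hpS
  have hO : IsOpen (Ω \ S') := hD.op.sdiff hSc'
  -- restrict the chart
  set Ψ' : OpenPartialHomeomorph E E := Ψ.restrOpen (Ω \ S') hO with hΨ'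
  have hsrc : Ψ'.source = Ψ.source ∩ (Ω \ S') := by
    rw [hΨ', OpenPartialHomeomorph.restrOpen_source]
  have hcoe : ∀ x, Ψ' x = Ψ x := fun x => rfl
  have htgt : Ψ'.target ⊆ Ψ.target := by
    intro y hy
    have h1 : Ψ'.symm y ∈ Ψ'.source := Ψ'.map_target hy
    rw [hsrc] at h1
    have h2 : Ψ' (Ψ'.symm y) = y := Ψ'.right_inv hy
    have h3 := Ψ.map_source h1.1
    rw [← hcoe, h2] at h3
    exact h3
  have hsm' : ContDiffOn ℝ ∞ Ψ' Ψ'.source := by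
    rw [hsrc]; exact hsm.mono inter_subset_left
  have hsms' : ContDiffOn ℝ ∞ Ψ'.symm Ψ'.target := hsms.mono htgt
  have hfl' : ∀ x ∈ Ψ'.source, x ∈ S ↔ (Ψ' x) 2 = 0 := by
    intro x hx
    rw [hsrc] at hx
    rw [hfl x hx.1]
    simp [hcoe]
  have hpsrc : p ∈ Ψ'.source := by rw [hsrc]; exact ⟨hp, hpΩ, hpS'⟩
  have hp2 : (Ψ' p) 2 = 0 := (hfl' p hpsrc).1 hpS
  have htan : ∀ j, ∀ q ∈ Ψ'.source, (Ψ' q) 2 = 0 →
      ⟪gr (h' j) q, gr (fun x => (Ψ' x) 2) q⟫ = 0 := by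
    intro j q hq hq2
    have hW : WN Ω S (h j) := hWNS Ω S σ ν (ψ j) (h j) (τ j) hD.op hD.bdd hσ hS.cpt hS.sub
      (hh j) (hsol j)
    exact hTAN Ω S (Ω \ S') (h j) (h' j) Ψ' hD.op hSc hO hW (hh' j)
      (by rw [hsrc]; exact inter_subset_right)
      (by rw [hsrc]; exact fun x hx => hx.2.1) hsm' hsms' hfl'
      (fun x hx hxS => by
        rw [hsrc] at hx
        exact heq j x hx.2.1 hxS hx.2.2) q hq ((hfl' q hq).2 hq2)
  have hinv := hSIY N (Ω \ S') h' Ψ' hO hh' (by rw [hsrc]; exact inter_subset_right) hsm' hsms'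
    htan
  have hnt : NonTriv (Ω \ S') h' := hNTV N Ω S' σ ν ψ h' τ' hD hσ hF.bar hS'.cpt hS'.sub hh' hsol'
  have hAN := ((hINC N (Ω \ S') h' hO hh').2.2 (hCNX Ω S' hD.op hD.conn hS').isPreconnected
    hnt).1 p ⟨hpΩ, hpS'⟩
  obtain ⟨q, hq, hqS, hqA⟩ := hANC (Inv (Ω \ S') h') S Ψ' p hpsrc hp2 hsm' hsms' hfl'
    (fun x hx hxS => hinv x hx ((hfl' x hx).1 hxS)) hAN
  exact hno q ⟨hqS, nac_flat Ψ' hq ((hfl' q hq).1 hqS) hsm' hsms' hfl'⟩ hqA

end Pool.Agent.H74.CK
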